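import Pool.Agent.H69.Col4.Limit

/-!
# `t_*(4) ≤ 0.5786`, and monotonicity of `t_*(r)` at `r = 4` is incompatible with Turán's conjecture

`turanDensity k r` is the limit `t(k,r)` of `T(n,k,r) / C(n,r)`,
`rescaled k r = (k-1)^(r-1) / r! * t(k,r)` is `t_*(k,r)` and `tStar r` is its limit `t_*(r)` for
`k → ∞`.  We prove `t_*(4) ≤ 0.5786`.  Turán's conjecture for triples says `t_*(3) = 2/3`.  So if
`t_*(3) ≤ t_*(4)`, then `t_*(3) ≤ 0.5786` and `t(k,3) ≤ 3.4717 / (k-1)^2` for all large `k`.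

Construction: many components, each with a copy of the planes of the 6-dimensional affine space over
the field with two elements (every 10 of the 64 points contain a plane); repeated labels are
controlled by the 4-sets that are unions of two pairs with equal component and label and equal colour
(`Pool.Agent.H69.Col4`, see also `MP_465f8a_co.ColouredRepetitions`).
-/

set_option autoImplicit false

open Finset Filter Topology

namespace Pool.Agent.Results.MP_ff43e2_co.FourBelowThree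

open Pool.Agent.H688R3.TuranGen (c exists_cov c_le_card tendsto_c exists_limit)
open Pool.Agent.H69.Col4

/-- `E` is a family of `r`-sets and every `k`-set of vertices contains a member of `E`: the
`r`-graph `E` has independence number less than `k`. -/
def Covers {V : Type} (k r : ℕ) (E : Finset (Finset V)) : Prop :=
  (∀ e ∈ E, e.card = r) ∧ ∀ S : Finset V, S.card = k → ∃ e ∈ E, e ⊆ S

/-- The Turán number `T(n,k,r)`. -/
noncomputable def turanNumber (n k r : ℕ) : ℕ :=
  sInf {m | ∃ E : Finset (Finset (Fin n)), Covers k r E ∧ E.card = m}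

/-- The Turán density `t(k,r)`, the limit of `T(n,k,r) / C(n,r)`. -/
noncomputable def turanDensity (k r : ℕ) : ℝ :=
  limUnder atTop fun n : ℕ => (turanNumber n k r : ℝ) / (n.choose r : ℝ)

/-- The rescaled Turán density `t_*(k,r) = (k-1)^(r-1) / r! * t(k,r)`. -/
noncomputable def rescaled (k r : ℕ) : ℝ :=
  ((k : ℝ) - 1) ^ (r - 1) / (r.factorial : ℝ) * turanDensity k r

theorem turanNumber_eq {n k r : ℕ} (hk : r ≤ k) : (turanNumber n k r : ℝ) = c r k n := by
  obtain ⟨F, hF, hFc⟩ := exists_cov hk n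
  have hmem : F.card ∈ {m : ℕ | ∃ F : Finset (Finset (Fin n)), Covers k r F ∧ F.card = m} :=
    ⟨F, hF, rfl⟩
  apply le_antisymm
  · rw [← hFc]
    exact_mod_cast Nat.sInf_le hmem
  · obtain ⟨G, hG, hGc⟩ := Nat.sInf_mem ⟨_, hmem⟩
    have h1 : turanNumber n k r = G.card := hGc.symm
    rw [h1]
    exact c_le_card hG

theorem tendsto_turanNumber {k r : ℕ} (hk : r ≤ k) :
    Tendsto (fun n : ℕ => (turanNumber n k r : ℝ) / (n.choose r : ℝ)) atTop
      (𝓝 (Pool.Agent.H688R3.TuranGen.t r k)) := by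
  refine (tendsto_c r k).congr fun n => ?_
  rw [turanNumber_eq hk]

theorem turanDensity_eq {k r : ℕ} (hk : r ≤ k) :
    turanDensity k r = Pool.Agent.H688R3.TuranGen.t r k :=
  (tendsto_turanNumber hk).limUnder_eq

/-- The limit `t_*(r)` of `t_*(k,r)` for `k → ∞`. -/
noncomputable def tStar (r : ℕ) : ℝ := limUnder atTop fun k : ℕ => rescaled k r

theorem exists_tStar {r : ℕ} (hr : 3 ≤ r) :
    Tendsto (fun k : ℕ => rescaled k r) atTop (𝓝 (tStar r)) ∧
      ∀ k : ℕ, r ≤ k → tStar r ≤ rescaled k r := by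
  obtain ⟨s, rfl⟩ : ∃ s, r = s + 1 := ⟨r - 1, by omega⟩
  obtain ⟨L, h1, h2, h3⟩ := exists_limit (s := s) (by omega)
  have hf : (0 : ℝ) < ((s + 1).factorial : ℝ) := by positivity
  have h4 : Tendsto (fun k : ℕ => rescaled k (s + 1)) atTop (𝓝 (L / ((s + 1).factorial : ℝ))) := by
    have h5 := h2.div_const ((s + 1).factorial : ℝ)
    refine h5.congr' ?_
    filter_upwards [eventually_ge_atTop (s + 1)] with k hk
    unfold rescaled
    rw [turanDensity_eq hk, Nat.add_sub_cancel]
    ring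
  have h5 : tStar (s + 1) = L / ((s + 1).factorial : ℝ) := h4.limUnder_eq
  rw [h5]
  refine ⟨h4, fun k hk => ?_⟩
  unfold rescaled
  rw [turanDensity_eq hk, Nat.add_sub_cancel, div_le_iff₀ hf]
  refine (h3 k hk).trans (le_of_eq ?_)
  field_simp

/-- `t_*(k,4)` for large `k` -/
theorem rescaled_large : ∀ ε : ℝ, 0 < ε → ∃ K : ℕ, ∀ k : ℕ, K ≤ k →
    rescaled k 4 ≤ 13.8862 / 24 + ε := by
  intro ε hε
  obtain ⟨L, h1, h2, h3⟩ := exists_limit (s := 3) (by norm_num)
  have hLle : ∀ k : ℕ, 4 ≤ k → L ≤ ((k : ℝ) - 1) ^ 3 * Pool.Agent.H688R3.TuranGen.t 4 k := h3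
  have hmain : L ≤ 13.8862 := by
    have h := limit_bound (L := L) (a := 9) (N := 64) (b := 249984) (by norm_num) (by norm_num)
      (fun m j hm hj => by
        refine (le_of_main hLle planes_cov planes_card m j hm hj).trans ?_
        have hc : Fintype.card (Pool.Agent.X44.TS.V 6) = 64 := by simp
        rw [hc]
        refine mul_le_mul_of_nonneg_left ?_ (by positivity)
        unfold Pool.Agent.H69.Col4.dens
        have hb : ((B Planes).card : ℝ) ≤ ((249984 : ℕ) : ℝ) := by exact_mod_cast card_B_planes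
        have hm' : (0 : ℝ) < m := by exact_mod_cast hm
        have := div_le_div_of_nonneg_right hb
          (show (0 : ℝ) ≤ ((64 : ℕ) : ℝ) ^ 4 * (m : ℝ) ^ 3 by positivity)
        linarith) (y := 49 / 2) (by norm_num)
    refine h.trans ?_
    norm_num
  have h4 : ∀ᶠ k : ℕ in atTop,
      ((k : ℝ) - 1) ^ 3 * Pool.Agent.H688R3.TuranGen.t 4 k < 13.8862 + 24 * ε := by
    refine (tendsto_order.1 h2).2 _ ?_
    linarith
  obtain ⟨K, hK⟩ := eventually_atTop.1 (h4.and (eventually_ge_atTop 4))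
  refine ⟨K, fun k hk => ?_⟩
  obtain ⟨h5, h6⟩ := hK k hk
  unfold rescaled
  rw [turanDensity_eq h6]
  have hfac : ((Nat.factorial 4 : ℕ) : ℝ) = 24 := by norm_num [Nat.factorial]
  rw [hfac, show 4 - 1 = 3 from rfl, div_mul_eq_mul_div, div_le_iff₀ (by norm_num)]
  linarith

/-- (1) `t(k,r)` is the limit of `T(n,k,r) / C(n,r)` for all `r ≤ k`, and for `r ≥ 3` the limit
`t_*(r)` of `t_*(k,r)` exists and is at most `t_*(k,r)` for every `k ≥ r`.
(2) `t_*(4) ≤ 0.5786`.
(3) If `t_*(3) ≤ t_*(4)`, then `t_*(3) ≤ 0.5786` (Turán's conjecture gives `2/3`), and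
`t(k,3) ≤ 3.4717 / (k-1)^2` for all large `k`. -/
theorem result :
    (∀ k r : ℕ, r ≤ k →
      Tendsto (fun n : ℕ => (turanNumber n k r : ℝ) / (n.choose r : ℝ)) atTop
        (𝓝 (turanDensity k r))) ∧
    (∀ r : ℕ, 3 ≤ r → Tendsto (fun k : ℕ => rescaled k r) atTop (𝓝 (tStar r)) ∧
      ∀ k : ℕ, r ≤ k → tStar r ≤ rescaled k r) ∧
    tStar 4 ≤ 0.5786 ∧
    (tStar 3 ≤ tStar 4 → tStar 3 ≤ 0.5786 ∧
      ∃ K : ℕ, ∀ k : ℕ, K ≤ k → turanDensity k 3 ≤ 3.4717 / ((k : ℝ) - 1) ^ 2) := by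
  have h4 : tStar 4 ≤ 0.5786 := by
    obtain ⟨K, hK⟩ := rescaled_large (1 / 1000000) (by norm_num)
    have h1 := (exists_tStar (r := 4) (by norm_num)).2 (max K 4) (le_max_right _ _)
    refine (h1.trans (hK _ (le_max_left _ _))).trans ?_
    norm_num
  refine ⟨fun k r hk => ?_, fun r hr => exists_tStar hr, h4, fun h => ⟨h.trans h4, ?_⟩⟩
  · rw [turanDensity_eq hk]
    exact tendsto_turanNumber hk
  · have h5 := (exists_tStar (r := 3) (by norm_num)).1
    have h6 : ∀ᶠ k : ℕ in atTop, rescaled k 3 < 3.4717 / 6 := by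
      refine (tendsto_order.1 h5).2 _ ?_
      refine lt_of_le_of_lt (h.trans h4) ?_
      norm_num
    obtain ⟨K, hK⟩ := eventually_atTop.1 (h6.and (eventually_ge_atTop 4))
    refine ⟨K, fun k hk => ?_⟩
    obtain ⟨h1, h2⟩ := hK k hk
    have hk4 : (4 : ℝ) ≤ k := by exact_mod_cast h2
    unfold rescaled at h1
    have hfac : ((Nat.factorial 3 : ℕ) : ℝ) = 6 := by norm_num [Nat.factorial]
    rw [hfac, show 3 - 1 = 2 from rfl, div_mul_eq_mul_div, div_lt_div_iff_of_pos_right (by norm_num)]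
      at h1
    have hpos : (0 : ℝ) < ((k : ℝ) - 1) ^ 2 := by
      have : (0 : ℝ) < (k : ℝ) - 1 := by linarith
      positivity
    rw [le_div_iff₀ hpos, mul_comm]
    linarith

end Pool.Agent.Results.MP_ff43e2_co.FourBelowThree
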